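import Pool.Agent.H33.Rec.Final

set_option autoImplicit false

/-!
Third-order recursion `x_{n+1} = 1 / (C_n x_{n-1} + x_{n-2})` with a nonnegative `k`-periodic
coefficient, given as a function `C` on `ZMod k` (so `C_n` is `C (n : ZMod k)`).

`IsPosSol C x`, `AllBounded C` (file `Pool/Agent/H33/Rec/Defs.lean`): positive solutions, indexed
so that `x n` is the term `x_{n-2}` of the problem, and boundedness of all of them.

`walk c n j` (file `Walk.lean`): start at the index `n`; a step adds `6` if the coefficient
vanishes at the current index and `5` otherwise; `walk c n j` is the index after `j` steps.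

`blk c m p`, `run c n p j` (file `Walk2.lean`): an explicit map of positive triples attached to the
index `m`, and the composition of these maps along the first `j` steps of the walk from `n`.

The theorem gives a necessary and sufficient condition for all positive solutions to be bounded,
for every period `k` and every nonnegative coefficient (prime period or not): a condition on the
zeros of `C` and, unless `C` vanishes on a residue class mod `3`, for each walk that closes up
after exactly one period (`walk c n j = n + k`), the existence of a positive triple which the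
composed map makes smaller in each coordinate.

The last two parts make this explicit when all coefficients are positive and `5` does not divide
`k` (no walk closes up), and when `k = 5`.
-/

namespace Pool.Agent.Results.MP_aa7c57_an.BoundednessCriterion

open Pool.Agent.H33.Rec

theorem result (k : ℕ) [NeZero k] (C : ZMod k → ℝ) (hC : ∀ i, 0 ≤ C i) :
    (AllBounded C ↔
      (∀ i : ZMod k, (∀ j : ℕ, C (i + 6 * j) = 0) → ∀ j : ℕ, C (i + 3 + 6 * j) = 0) ∧
      ((∃ i : ZMod k, ∀ j : ℕ, C (i + 3 * j) = 0) ∨
        ∀ n < k, ∀ j : ℕ, walk (fun m : ℕ => C m) n j = n + k →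
          ∃ p : ℝ × ℝ × ℝ, 0 < p.1 ∧ 0 < p.2.1 ∧ 0 < p.2.2 ∧
            (run (fun m : ℕ => C m) n p j).1 < p.1 ∧
            (run (fun m : ℕ => C m) n p j).2.1 < p.2.1 ∧
            (run (fun m : ℕ => C m) n p j).2.2 < p.2.2)) ∧
    ((∀ i, 0 < C i) → ¬ 5 ∣ k → AllBounded C) ∧
    (k = 5 → (AllBounded C ↔ ∀ i, C i * (1 - C (i + 3)) < 1 ∧
      0 < 1 - C i + C i * C (i + 3) - C i * C (i + 1) * C (i + 3) * (1 - C (i + 4)))) := by
  refine ⟨allBounded_iff_final hC, allBounded_of_pos, fun hk => ?_⟩
  subst hk
  exact allBounded_iff_five hC

end Pool.Agent.Results.MP_aa7c57_an.BoundednessCriterion
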